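import Pool.Agent.Helper61_LT.Stmts
import Pool.Agent.Helper61_LT.Tools

/-!
# LT, PAR: almost acyclic complexes have almost as many even as odd cells
-/

set_option autoImplicit false

open Matrix

namespace Pool.Agent.LT.H31

theorem rank_diag {C : Type} [Fintype C] [DecidableEq C] (p : C → Prop) [DecidablePred p] :
    (Matrix.diagonal (fun x => if p x then (1 : ℝ) else 0)).rank = Fintype.card {x // p x} := by
  rw [Matrix.rank_diagonal]
  refine Fintype.card_congr (Equiv.subtypeEquivRight fun x => ?_)
  by_cases h : p x <;> simp [h]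

/-- a matrix which exchanges the coordinates with `p` and without `p` -/
theorem rank_swap {C : Type} [Fintype C] [DecidableEq C] (p : C → Prop) [DecidablePred p]
    (X : Matrix C C ℝ) (h : ∀ a b, X a b ≠ 0 → (p a ↔ ¬ p b)) :
    X.rank ≤ 2 * Fintype.card {x // p x} := by
  have h1 : X = X * Matrix.diagonal (fun x => if p x then (1 : ℝ) else 0) +
      Matrix.diagonal (fun x => if p x then (1 : ℝ) else 0) * X := by
    ext a b
    rw [Matrix.add_apply, Matrix.mul_diagonal, Matrix.diagonal_mul]
    by_cases hab : X a b = 0
    · rw [hab]; simp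
    · have := h a b hab
      by_cases hb : p b
      · have ha : ¬ p a := fun ha => (this.1 ha) hb
        simp [ha, hb]
      · have ha : p a := this.2 hb
        simp [ha, hb]
  rw [h1]
  refine (rk_add _ _).trans ?_
  have h2 := Matrix.rank_mul_le_right X (Matrix.diagonal (fun x => if p x then (1 : ℝ) else 0))
  have h3 := Matrix.rank_mul_le_left (Matrix.diagonal (fun x => if p x then (1 : ℝ) else 0)) X
  rw [rank_diag] at h2 h3
  omega

theorem par : ParStmt := by
  intro C _ _ dc d r hd hdd hr
  have hX : Lp d = (d + dᵀ) * (d + dᵀ) := by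
    have h1 : dᵀ * dᵀ = 0 := by rw [← Matrix.transpose_mul, hdd, Matrix.transpose_zero]
    rw [Matrix.add_mul, Matrix.mul_add, Matrix.mul_add, hdd, h1, Lp]
    simp
  have hpar : ∀ a b, (d + dᵀ) a b ≠ 0 → (dc a : ℤ) = dc b + 1 ∨ (dc a : ℤ) = dc b - 1 := by
    intro a b hab
    by_cases h1 : d a b = 0
    · have h2 : d b a ≠ 0 := by
        intro h2
        apply hab
        rw [Matrix.add_apply, Matrix.transpose_apply, h1, h2, add_zero]
      have := hd b a h2
      left; omega
    · have := hd a b h1
      right; omega
  have hrank : (Lp d).rank ≤ (d + dᵀ).rank := by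
    rw [hX]
    exact Matrix.rank_mul_le_left _ _
  have he : (d + dᵀ).rank ≤ 2 * Fintype.card (Ev dc) := by
    refine rank_swap (fun x => dc x % 2 = 0) _ fun a b hab => ?_
    rcases hpar a b hab with h | h <;> omega
  have ho : (d + dᵀ).rank ≤ 2 * Fintype.card (Od dc) := by
    refine rank_swap (fun x => dc x % 2 = 1) _ fun a b hab => ?_
    rcases hpar a b hab with h | h <;> omega
  have hcard : Fintype.card C = Fintype.card (Ev dc) + Fintype.card (Od dc) := by
    have h1 := Finset.card_filter_add_card_filter_not (s := (Finset.univ : Finset C))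
      (fun x => dc x % 2 = 0)
    have h2 : (Finset.univ : Finset C).filter (fun x => ¬ dc x % 2 = 0) =
        (Finset.univ : Finset C).filter (fun x => dc x % 2 = 1) := by
      refine Finset.filter_congr fun x _ => ?_
      omega
    rw [h2] at h1
    rw [Fintype.card_subtype, Fintype.card_subtype, h1, Finset.card_univ]
  omega

end Pool.Agent.LT.H31
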