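import Pool.Agent.Helper61_LT.Stmts

/-!
# LT, SCL: choice of the scale
-/

set_option autoImplicit false

namespace Pool.Agent.LT.H31

/-- geometric sum with threshold -/
theorem geo_aux (L y : ℝ) (hL : 0 < L) (hy : 0 < y) (m : ℕ) :
    (∑ k ∈ Finset.range m, if 2 ^ k * L < y then 2 ^ k * L else 0) ≤ 2 ^ m * L ∧
    (∑ k ∈ Finset.range m, if 2 ^ k * L < y then 2 ^ k * L else 0) ≤ 2 * y := by
  induction m with
  | zero =>
    simp only [Finset.range_zero, Finset.sum_empty]
    constructor <;> positivity
  | succ m ih =>
    rw [Finset.sum_range_succ]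
    have h0 : (2 : ℝ) ^ (m + 1) * L = 2 ^ m * L + 2 ^ m * L := by ring
    have h1 : (0 : ℝ) < 2 ^ m * L := by positivity
    split_ifs with h
    · constructor <;> linarith [ih.1]
    · constructor <;> linarith [ih.1, ih.2]

theorem scl : SclStmt := by
  intro B ε δ1 K hB hε hδ hδ1 hK
  obtain ⟨L, hL0, hL1, hL2⟩ : ∃ L : ℝ, 0 < L ∧ Real.log (1 / δ1) ≤ L ∧ Real.log K ≤ L := by
    refine ⟨max (Real.log (1 / δ1)) (Real.log K), ?_, le_max_left _ _, le_max_right _ _⟩
    refine lt_of_lt_of_le (Real.log_pos ?_) (le_max_left _ _)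
    rw [lt_div_iff₀ hδ]
    linarith
  obtain ⟨m, hm⟩ := exists_nat_ge (4 * B / ε + 1)
  have hm0 : 4 * B ≤ ε * m := by
    have h1 : 4 * B / ε ≤ m := by linarith
    rw [div_le_iff₀ hε] at h1
    linarith
  have hmpos : 0 < m := by
    have h1 : 0 ≤ 4 * B / ε := by positivity
    have h2 : (0 : ℝ) < m := by linarith
    exact_mod_cast h2
  let D : ℕ → ℝ := fun k => Real.exp (-(2 ^ k * L))
  have hDpos : ∀ k, 0 < D k := fun k => Real.exp_pos _
  have hlogD : ∀ k, Real.log (1 / D k) = 2 ^ k * L := by
    intro k
    simp only [D, one_div, Real.log_inv, Real.log_exp, neg_neg]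
  have h2k : ∀ k : ℕ, L ≤ 2 ^ k * L := by
    intro k
    have : (1 : ℝ) ≤ 2 ^ k := one_le_pow₀ (by norm_num)
    nlinarith
  refine ⟨(Finset.range m).image D, ?_, ?_⟩
  · intro δ hδ'
    obtain ⟨k, _, rfl⟩ := Finset.mem_image.1 hδ'
    refine ⟨hDpos k, ?_⟩
    rw [← Real.log_le_log_iff (hDpos k) hδ]
    have h1 : Real.log (D k) = -(2 ^ k * L) := Real.log_exp _
    have h2 : Real.log (1 / δ1) = -Real.log δ1 := by rw [one_div, Real.log_inv]
    have h3 := h2k k
    linarith
  · intro Λ N hΛ hsum
    -- the exchange of sums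
    have key : ∀ Λ : Multiset ℝ, (∀ x ∈ Λ, 0 < x) →
        ∑ k ∈ Finset.range m, ((Λ.filter fun x => x < D k).card : ℝ) * (2 ^ k * L) ≤
          2 * ((Λ.filter fun x => x < 1).map fun x => Real.log (1 / x)).sum := by
      intro Λ
      induction Λ using Multiset.induction_on with
      | empty => intro _; simp
      | cons x Λ ih =>
        intro hpos
        have ihx := ih fun z hz => hpos z (Multiset.mem_cons_of_mem hz)
        have hx : 0 < x := hpos x (Multiset.mem_cons_self x Λ)
        have hlt : ∀ k, (x < D k ↔ 2 ^ k * L < Real.log (1 / x)) := by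
          intro k
          rw [← Real.log_lt_log_iff hx (hDpos k)]
          have h1 : Real.log (D k) = -(2 ^ k * L) := Real.log_exp _
          have h2 : Real.log (1 / x) = -Real.log x := by rw [one_div, Real.log_inv]
          rw [h1, h2]
          constructor <;> intro h <;> linarith
        have hcard : ∀ k, (((x ::ₘ Λ).filter fun x => x < D k).card : ℝ) * (2 ^ k * L) =
            ((Λ.filter fun x => x < D k).card : ℝ) * (2 ^ k * L) +
              (if 2 ^ k * L < Real.log (1 / x) then 2 ^ k * L else 0) := by
          intro k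
          by_cases h : x < D k
          · rw [Multiset.filter_cons_of_pos (p := fun x => x < D k) _ h, Multiset.card_cons, if_pos ((hlt k).1 h)]
            push_cast
            ring
          · rw [Multiset.filter_cons_of_neg (p := fun x => x < D k) _ h, if_neg (fun h' => h ((hlt k).2 h')), add_zero]
        rw [Finset.sum_congr rfl fun k _ => hcard k, Finset.sum_add_distrib]
        by_cases h1 : x < 1
        · rw [Multiset.filter_cons_of_pos (p := fun x => x < 1) _ h1, Multiset.map_cons, Multiset.sum_cons]
          have hy : 0 < Real.log (1 / x) := Real.log_pos (by rw [lt_div_iff₀ hx]; linarith)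
          have := (geo_aux L _ hL0 hy m).2
          linarith
        · rw [Multiset.filter_cons_of_neg (p := fun x => x < 1) _ h1]
          have hz : ∑ k ∈ Finset.range m,
              (if 2 ^ k * L < Real.log (1 / x) then 2 ^ k * L else 0) = 0 := by
            refine Finset.sum_eq_zero fun k _ => ?_
            rw [if_neg]
            intro h
            have h3 := (hlt k).2 h
            have h4 : D k < 1 := by
              simp only [D]
              rw [Real.exp_lt_one_iff]
              have := h2k k
              linarith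
            linarith
          rw [hz, add_zero]
          exact ihx
    by_contra hcon
    push Not at hcon
    have h1 : ∀ k ∈ Finset.range m, ε * N <
        2 * (((Λ.filter fun x => x < D k).card : ℝ) * (2 ^ k * L)) := by
      intro k hk
      have h2 := hcon (D k) (Finset.mem_image_of_mem _ hk)
      rw [hlogD] at h2
      have h3 : (0 : ℝ) ≤ ((Λ.filter fun x => x < D k).card : ℝ) := Nat.cast_nonneg _
      have h4 : Real.log K + 2 ^ k * L ≤ 2 * (2 ^ k * L) := by linarith [h2k k]
      have h5 := mul_le_mul_of_nonneg_left h4 h3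
      linarith
    have h2 : ∑ _k ∈ Finset.range m, ε * (N : ℝ) <
        ∑ k ∈ Finset.range m, 2 * (((Λ.filter fun x => x < D k).card : ℝ) * (2 ^ k * L)) :=
      Finset.sum_lt_sum_of_nonempty ⟨0, Finset.mem_range.2 hmpos⟩ h1
    rw [Finset.sum_const, Finset.card_range, nsmul_eq_mul, ← Finset.mul_sum] at h2
    have h3 := key Λ hΛ
    have h4 : 4 * B * N ≤ ε * m * N := mul_le_mul_of_nonneg_right hm0 (Nat.cast_nonneg _)
    nlinarith

end Pool.Agent.LT.H31
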